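import Pool.Agent.P8H71.SK.Stm

/-! Project SK of helper71, package CNJ: nilpotent matrices of rank one are conjugate. -/

set_option autoImplicit false

namespace Pool.Agent.P8H41.SK

open Matrix Pool.Agent.P8H71.SK

variable {d : ℕ}

theorem det_rk (u v : Fin d → ℝ) : (1 + vecMulVec u v).det = 1 + v ⬝ᵥ u := by
  rw [vecMulVec_eq Unit, det_one_add_replicateCol_mul_replicateRow]

theorem mv (u v w : Fin d → ℝ) : (1 + vecMulVec u v) *ᵥ w = w + (v ⬝ᵥ w) • u := by
  rw [add_mulVec, one_mulVec, vecMulVec_mulVec, op_smul_eq_smul]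

theorem vm (u v w : Fin d → ℝ) : w ᵥ* (1 + vecMulVec u v) = w + (w ⬝ᵥ u) • v := by
  rw [vecMul_add, vecMul_one, vecMul_vecMulVec]

theorem cnj : S_CNJ := by
  intro d c e hc he hec
  obtain ⟨a, ha⟩ := Function.ne_iff.1 he
  rw [Pi.zero_apply] at ha
  obtain ⟨b, hba, hb⟩ : ∃ b, b ≠ a ∧ c b ≠ 0 := by
    by_contra hcon
    push Not at hcon
    have h1 : e ⬝ᵥ c = e a * c a := by
      unfold dotProduct
      exact Finset.sum_eq_single a (fun b _ hb => by rw [hcon b hb, mul_zero])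
        (fun h => absurd (Finset.mem_univ a) h)
    rw [hec] at h1
    have h2 : c a = 0 := by
      rcases mul_eq_zero.1 h1.symm with h | h
      · exact absurd h ha
      · exact h
    apply hc
    funext i
    by_cases hi : i = a
    · rw [hi, h2]; rfl
    · rw [hcon i hi]; rfl
  obtain ⟨da, hda⟩ : ∃ da : Fin d → ℝ, da = Pi.single a 1 := ⟨_, rfl⟩
  obtain ⟨db, hdb⟩ : ∃ db : Fin d → ℝ, db = Pi.single b 1 := ⟨_, rfl⟩
  have hva : ∀ v : Fin d → ℝ, v ⬝ᵥ da = v a := fun v => by rw [hda]; simp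
  have hvb : ∀ v : Fin d → ℝ, v ⬝ᵥ db = v b := fun v => by rw [hdb]; simp
  have hav : ∀ v : Fin d → ℝ, da ⬝ᵥ v = v a := fun v => by rw [hda]; simp
  have hbv : ∀ v : Fin d → ℝ, db ⬝ᵥ v = v b := fun v => by rw [hdb]; simp
  have haa : da a = 1 := by rw [hda]; simp
  have hbb : db b = 1 := by rw [hdb]; simp
  have hab : da b = 0 := by rw [hda]; simp [hba]
  have hba' : db a = 0 := by rw [hdb]; simp [hba.symm]
  obtain ⟨P, hP⟩ : ∃ P : Matrix (Fin d) (Fin d) ℝ,
      P = 1 + vecMulVec (-(e a)⁻¹ • da) (e - e a • da) := ⟨_, rfl⟩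
  obtain ⟨Q, hQ⟩ : ∃ Q : Matrix (Fin d) (Fin d) ℝ,
      Q = 1 + vecMulVec (c - c a • da - db) db := ⟨_, rfl⟩
  obtain ⟨R, hR⟩ : ∃ R : Matrix (Fin d) (Fin d) ℝ,
      R = 1 + vecMulVec (((c b)⁻¹ - 1) • da) da := ⟨_, rfl⟩
  have hdP : P.det = 1 := by
    rw [hP, det_rk, dotProduct_smul, hva]
    simp [haa]
  have hdQ : Q.det = c b := by
    rw [hQ, det_rk, hbv]
    simp [hab, hbb]
  have hdR : R.det = (c b)⁻¹ := by
    rw [hR, det_rk, hav]
    simp [haa]
  obtain ⟨K, hK⟩ : ∃ K, K = P * Q * R := ⟨_, rfl⟩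
  have hdK : K.det = 1 := by
    rw [hK, det_mul, det_mul, hdP, hdQ, hdR, one_mul, mul_inv_cancel₀ hb]
  have hKb : K *ᵥ db = c := by
    have h1 : R *ᵥ db = db := by rw [hR, mv, hvb, hab, zero_smul, add_zero]
    have h2 : Q *ᵥ db = c - c a • da := by
      rw [hQ, mv, hvb, hbb, one_smul]; abel
    have h3 : P *ᵥ (c - c a • da) = c := by
      rw [hP, mv, sub_dotProduct, dotProduct_sub, hec, dotProduct_smul, hva, smul_dotProduct,
        hav]
      simp only [Pi.sub_apply, Pi.smul_apply, smul_eq_mul, haa, mul_one, sub_self, mul_zero,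
        sub_zero, zero_sub, smul_smul]
      have h4 : -(c a * e a) * -(e a)⁻¹ = c a := by field_simp
      rw [h4]; abel
    rw [hK, ← mulVec_mulVec, h1, ← mulVec_mulVec, h2, h3]
  have hKe : e ᵥ* K = (e a * (c b)⁻¹) • da := by
    have h1 : e ᵥ* P = e a • da := by
      rw [hP, vm, dotProduct_smul, hva, smul_eq_mul, neg_mul, inv_mul_cancel₀ ha, neg_smul,
        one_smul]
      abel
    have h2 : (e a • da) ᵥ* Q = e a • da := by
      rw [hQ, vm, smul_dotProduct, hav]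
      simp [haa, hba']
    have h3 : (e a • da) ᵥ* R = (e a * (c b)⁻¹) • da := by
      rw [hR, vm, smul_dotProduct, hav]
      simp only [Pi.smul_apply, haa, smul_eq_mul, mul_one]
      rw [← add_smul]; congr 1; ring
    rw [hK, ← vecMul_vecMul, ← vecMul_vecMul, h1, h2, h3]
  obtain ⟨κ, hκ⟩ : ∃ κ : SLd d, κ.1 = K := ⟨⟨K, hdK⟩, rfl⟩
  refine ⟨κ, b, a, hba, (e a * (c b)⁻¹)⁻¹, inv_ne_zero (mul_ne_zero ha (inv_ne_zero hb)), ?_⟩
  intro t
  have hel : (el b a hba t).1 = 1 + t • vecMulVec db da := by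
    have h1 : (el b a hba t).1 = transvection b a t := rfl
    rw [h1, transvection, hdb, hda, ← single_eq_single_vecMulVec_single, smul_single, smul_eq_mul,
      mul_one]
  have h1 : K * (el b a hba t).1 =
      (1 + ((e a * (c b)⁻¹)⁻¹ * t) • vecMulVec c e) * K := by
    rw [hel, mul_add, mul_one, mul_smul_comm, mul_vecMulVec, hKb, add_mul, one_mul,
      smul_mul_assoc, vecMulVec_mul, hKe, vecMulVec_smul, smul_smul]
    congr 2
    field_simp
  have h2 : (κ * el b a hba t * κ⁻¹).1 = K * (el b a hba t).1 * (κ⁻¹).1 := by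
    rw [← hκ]; rfl
  have h3 : K * (κ⁻¹).1 = 1 := by
    have h4 := congrArg Subtype.val (mul_inv_cancel κ)
    rw [← hκ]; exact h4
  rw [h2, h1, Matrix.mul_assoc, h3, Matrix.mul_one]

end Pool.Agent.P8H41.SK
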